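import Pool.Agent.H4.SGW.Fin

/-!
# The stable 4-genus of the knot `7_7` lies between `1/10` and `1/3`

`g4 n w` is the 4-genus of the closure of the braid `w` on `n` strands, defined by braided
surfaces: `Surf n w e` says that for some `b` the braid `w` is the product of a connected list of
`n + 2b + e - 1` bands (conjugates of generators and their inverses) on `n + b` strands, i.e. that
the closure of `w` bounds in the 4-ball a connected surface of Euler characteristic `1 - e` with
`n + b` discs, these bands, and `b` caps. By the theorems of Rudolph and Markov this is the smooth
4-genus. `nfold 4 w77 k` is the braid on `3k + 1` strands whose closure is `k · 7_7`.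
-/

set_option autoImplicit false

namespace Pool.Agent.Results.MP_046772_gt.StableFourGenus

open Pool.H4.SGW

/-- The closure of `w77` is a knot, its stable 4-genus exists and lies between `1/10` and
`1/3`. -/
theorem result : IsKnot 4 w77 ∧ ∃ c, StableGenus 4 w77 c ∧ 1 / 10 ≤ c ∧ c ≤ 1 / 3 :=
  main

end Pool.Agent.Results.MP_046772_gt.StableFourGenus
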